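import Pool.Agent.Helper32_ABCT.Stmts2

/-!
# CBW: facet data for `black` and `white` (MP_a17fcb_ag)
-/

open MvPolynomial

namespace ABCT.H94

open ABCT FlatCell

/-- the label sum condition -/
def LabCond (l : Finset ℕ) (f : ℕ → ℤ) : Prop :=
  (∀ i : ℕ, i ∉ l → f i = 0) ∧ ∑ i ∈ l, f i = 0

theorem toric_pol (S : FlatCell) (hΔ : ∀ I ∈ S.M, S.Δ I = 1) (I : Finset ℕ) (hI : I ∈ S.M) :
    S.pol I = ∏ i ∈ I, X (Sum.inl i) := by
  rw [FlatCell.pol, hΔ I hI, map_one, mul_one]

theorem toric_ev (S : FlatCell) (hΔ : ∀ I ∈ S.M, S.Δ I = 1) {R : Type*} [CommSemiring R]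
    (y : S.V → R) (I : Finset ℕ) (hI : I ∈ S.M) : S.ev y I = ∏ i ∈ I, y (Sum.inl i) := by
  rw [ev_eq, hΔ I hI, eval₂_one, mul_one]

theorem prod_X_monomial {V : Type} (I : Finset ℕ) (g : ℕ → V) :
    (∏ i ∈ I, (X (g i) : MvPolynomial V ℕ)) = monomial (∑ i ∈ I, Finsupp.single (g i) 1) 1 := by
  classical
  induction I using Finset.induction_on with
  | empty => simp
  | insert a s ha ih =>
    rw [Finset.prod_insert ha, Finset.sum_insert ha, ih, X, monomial_mul, one_mul]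

theorem toric_support (S : FlatCell) (hΔ : ∀ I ∈ S.M, S.Δ I = 1) (I : Finset ℕ) (hI : I ∈ S.M)
    (μ : S.V →₀ ℕ) (hμ : μ ∈ (S.pol I).support) : S.mono (zexp μ) = ∏ i ∈ I, xx (Sum.inl i) := by
  classical
  have h1 : S.pol I = monomial (∑ i ∈ I, Finsupp.single (Sum.inl i) 1) 1 := by
    rw [toric_pol S hΔ I hI, prod_X_monomial]
  have h2 : μ = ∑ i ∈ I, Finsupp.single (Sum.inl i) 1 := by
    rw [h1] at hμ
    exact Finset.mem_singleton.mp (support_monomial_subset hμ)
  have h3 : S.ev xx I = μ.prod fun v n => xx v ^ n := by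
    rw [FlatCell.ev, h1, eval₂_monomial, ← h2]
    simp
  rw [mono_eq, lmono_zexp, ← h3, toric_ev S hΔ _ I hI]

/-- facet data of toric cells -/
structure TData (S S' : FlatCell) (φ : FacetData S S') (l : Finset ℕ) (x y : ℕ) (ε : ℤ) : Prop where
  hG : IsEmpty S.G
  hG' : IsEmpty S'.G
  hΔ : ∀ I ∈ S.M, S.Δ I = 1
  hΔ' : ∀ I ∈ S'.M, S'.Δ I = 1
  hΔ0 : ∀ I, I ∉ S'.M → S'.Δ I = 0
  hw : ∀ i : ℕ, φ.w (Sum.inl i) = xx (Sum.inl i)
  hl : ∀ i : ℕ, φ.lam (Sum.inl i) = if i = x then ε else 0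
  hε : ε * ε = 1
  hκ : φ.κ = 1
  hx : x ∈ l
  hy : y ∈ l
  hxy : y ≠ x
  hsub : S'.M ⊆ S.M
  he : ∀ I ∈ S.M, (I ∈ S'.M ∧ (if x ∈ I then ε else 0) = φ.e) ∨
    (I ∉ S'.M ∧ (if x ∈ I then ε else 0) = φ.e + 1)
  h0 : ∃ I, I ∈ S'.M
  h1 : ∃ I ∈ S.M, I ∉ S'.M
  hLam : ∀ m : S.V →₀ ℤ, m ∈ S.Lam ↔ LabCond l fun i => m (Sum.inl i)
  hLam' : ∀ m : S'.V →₀ ℤ, m ∈ S'.Lam ↔ LabCond (l.erase x) fun i => m (Sum.inl i)

variable {S S' : FlatCell} {φ : FacetData S S'} {l : Finset ℕ} {x y : ℕ} {ε : ℤ}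

theorem TData.P_eq (h : TData S S' φ l x y ε) (I : Finset ℕ) (hI : I ∈ S.M) :
    φ.P I = sVar S'.F ^ (if x ∈ I then ε else 0) * RatFunc.C (∏ i ∈ I, xx (Sum.inl i)) := by
  classical
  rw [FacetData.P, toric_ev S h.hΔ _ I hI]
  have h2 : ∀ i ∈ I, φ.psi (Sum.inl i) =
      (sVar S'.F ^ (if i = x then ε else 0)) * RatFunc.C (xx (Sum.inl i)) := by
    intro i _
    rw [FacetData.psi, h.hl, h.hw]
  rw [Finset.prod_congr rfl h2, Finset.prod_mul_distrib, ← map_prod]
  congr 1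
  rw [← zpow_sum₀ s_ne_zero, Finset.sum_ite_eq']

theorem TData.pair_eq (h : TData S S' φ l x y ε) (m : S.V →₀ ℤ) :
    φ.pair m = ε * m (Sum.inl x) := by
  classical
  have := h.hG
  rw [FacetData.pair, Finsupp.sum]
  have h2 : ∀ v ∈ m.support, φ.lam v * m v = if v = Sum.inl x then ε * m (Sum.inl x) else 0 := by
    rintro (i | g) _
    · rw [h.hl]
      by_cases hi : i = x
      · subst hi; simp
      · have : (Sum.inl i : S.V) ≠ Sum.inl x := fun e => hi (Sum.inl_injective e)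
        simp [hi, this]
    · exact (IsEmpty.false g).elim
  rw [Finset.sum_congr rfl h2, Finset.sum_ite_eq']
  split_ifs with h3
  · rfl
  · rw [Finsupp.notMem_support_iff.mp h3, mul_zero]

/-- the identification of the variables -/
def TData.eqv (h : TData S S' φ l x y ε) : S.V ≃ S'.V :=
  have := h.hG
  have := h.hG'
  Equiv.sumCongr (Equiv.refl ℕ) (Equiv.equivOfIsEmpty _ _)

theorem TData.eqv_inl (h : TData S S' φ l x y ε) (i : ℕ) : h.eqv (Sum.inl i) = Sum.inl i := rfl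

theorem TData.eqv_symm_inl (h : TData S S' φ l x y ε) (i : ℕ) :
    h.eqv.symm (Sum.inl i) = Sum.inl i := rfl

theorem TData.w_eq (h : TData S S' φ l x y ε) (v : S.V) : φ.w v = xx (h.eqv v) := by
  have := h.hG
  rcases v with i | g
  · rw [h.eqv_inl, h.hw]
  · exact (IsEmpty.false g).elim

theorem labCond_erase {f : ℕ → ℤ} (hx : x ∈ l) :
    (LabCond l f ∧ f x = 0) ↔ LabCond (l.erase x) f := by
  constructor
  · rintro ⟨⟨h1, h2⟩, h3⟩
    refine ⟨fun i hi => ?_, ?_⟩
    · by_cases hix : i = x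
      · rw [hix]; exact h3
      · exact h1 i fun h => hi (Finset.mem_erase.mpr ⟨hix, h⟩)
    · rw [← Finset.add_sum_erase l f hx, h3, zero_add] at h2
      exact h2
  · rintro ⟨h1, h2⟩
    have h3 : f x = 0 := h1 x (Finset.notMem_erase x l)
    refine ⟨⟨fun i hi => h1 i fun h => hi (Finset.mem_of_mem_erase h), ?_⟩, h3⟩
    rw [← Finset.add_sum_erase l f hx, h3, zero_add]
    exact h2

theorem TData.ok (h : TData S S' φ l x y ε) : φ.Ok := by
  classical
  have := h.hG
  have := h.hG'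
  have hε0 : ε ≠ 0 := by
    intro h0; have := h.hε; rw [h0] at this; omega
  obtain ⟨I₀, hI₀⟩ := h.h0
  obtain ⟨I₁, hI₁, hI₁'⟩ := h.h1
  have hxx : ∀ I : Finset ℕ, (∏ i ∈ I, (xx (Sum.inl i) : S'.F)) ≠ 0 := fun I =>
    Finset.prod_ne_zero_iff.mpr fun i _ => xx_ne_zero _
  have hP : ∀ I ∈ S'.M, S'.P I = ∏ i ∈ I, xx (Sum.inl i) := fun I hI =>
    toric_ev S' h.hΔ' _ I hI
  have hP0 : ∀ I, I ∉ S'.M → S'.P I = 0 := fun I hI => P_eq_zero S' I (h.hΔ0 I hI)
  refine
    { wpos := ?_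
      wlab := ?_
      wgap := ?_
      kpos := ?_
      kgap := ?_
      sub := ?_
      r2 := ?_
      r3 := ?_
      r3s := ?_
      res := ?_
      one := ?_ }
  · intro v
    rw [h.w_eq]
    exact PosF.x _
  · intro i
    rw [h.hw, flat_x, div_self (xx_ne_zero _)]
    exact one_mem _
  · intro g
    exact (IsEmpty.false g).elim
  · rw [h.hκ]; exact PosF.one
  · rw [h.hκ]; exact one_mem _
  · exact Finset.ssubset_iff_subset_ne.mpr ⟨h.hsub, fun e => hI₁' (by rw [e]; exact hI₁)⟩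
  · intro I hI
    rcases h.he I hI with ⟨h1, h2⟩ | ⟨h1, h2⟩
    · refine ⟨0, ?_⟩
      rw [h.P_eq I hI, hP I h1, h2, h.hκ]
      simp
    · refine ⟨Polynomial.C (∏ i ∈ I, xx (Sum.inl i)), ?_⟩
      rw [h.P_eq I hI, hP0 I h1, h2, h.hκ, RatFunc.algebraMap_C, zpow_add₀ s_ne_zero]
      simp only [map_one, mul_one, map_zero, zero_add, zpow_one]
      ring
  · intro I hI μ hμ
    have h1 : I ∈ S.M := h.hsub hI
    have h2 : (if x ∈ I then ε else 0) = φ.e := by
      rcases h.he I h1 with ⟨_, h2⟩ | ⟨h2, _⟩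
      · exact h2
      · exact absurd hI h2
    rw [toric_support S' h.hΔ' I hI μ hμ, h.P_eq I h1, h2, h.hκ]
    have h3 : RatFunc.C (∏ i ∈ I, (xx (Sum.inl i) : S'.F)) *
        (sVar S'.F ^ φ.e * RatFunc.C (1 : S'.F)) /
        (sVar S'.F ^ φ.e * RatFunc.C (∏ i ∈ I, (xx (Sum.inl i) : S'.F))) = 1 := by
      rw [map_one, mul_one, mul_comm, div_self]
      refine mul_ne_zero (zpow_ne_zero _ s_ne_zero) ?_
      rw [Ne, map_eq_zero]
      exact hxx I
    rw [h3]
    exact mon_one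
  · refine ⟨I₁, hI₁, hI₁', I₀, hI₀, 1, mon_one,
      (∏ i ∈ I₁, xx (Sum.inl i)) / (∏ i ∈ I₀, xx (Sum.inl i)), div_ne_zero (hxx _) (hxx _), ?_⟩
    have h2 : (if x ∈ I₀ then ε else 0) = φ.e := by
      rcases h.he I₀ (h.hsub hI₀) with ⟨_, h2⟩ | ⟨h2, _⟩
      · exact h2
      · exact absurd hI₀ h2
    have h3 : (if x ∈ I₁ then ε else 0) = φ.e + 1 := by
      rcases h.he I₁ hI₁ with ⟨h3, _⟩ | ⟨_, h3⟩
      · exact absurd h3 hI₁'
      · exact h3
    rw [h.P_eq I₁ hI₁, h.P_eq I₀ (h.hsub hI₀), h2, h3, zpow_add₀ s_ne_zero, map_div₀]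
    have h4 : RatFunc.C (∏ i ∈ I₀, (xx (Sum.inl i) : S'.F)) ≠ 0 := by
      rw [Ne, map_eq_zero]; exact hxx _
    have h5 : sVar S'.F ^ φ.e ≠ 0 := zpow_ne_zero _ s_ne_zero
    field_simp
  · -- Res
    have key : ∀ m : S.V →₀ ℤ, (m ∈ S.Lam ∧ φ.pair m = 0) ↔
        (Finsupp.domCongr (M := ℤ) h.eqv m) ∈ S'.Lam := by
      intro m
      rw [h.hLam, h.hLam', h.pair_eq, ← labCond_erase h.hx]
      have e1 : (fun i : ℕ => (Finsupp.domCongr (M := ℤ) h.eqv m) (Sum.inl i)) =
          fun i : ℕ => m (Sum.inl i) := by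
        funext i
        simp [Finsupp.domCongr_apply, Finsupp.equivMapDomain_apply, h.eqv_symm_inl]
      rw [e1]
      have e2 : ε * m (Sum.inl x) = 0 ↔ m (Sum.inl x) = 0 := by
        rw [mul_eq_zero]; simp [hε0]
      rw [e2]
      have e3 : (Finsupp.domCongr (M := ℤ) h.eqv m) (Sum.inl x) = m (Sum.inl x) :=
        congrFun e1 x
      rw [e3]
    have key2 : ∀ m : S.V →₀ ℤ, φ.wmono m = S'.mono (Finsupp.domCongr (M := ℤ) h.eqv m) := by
      intro m
      rw [wmono_eq, mono_eq, lmono, lmono, Finsupp.domCongr_apply, Finsupp.equivMapDomain_eq_mapDomain,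
        Finsupp.prod_mapDomain_index_inj h.eqv.injective]
      exact Finsupp.prod_congr fun v _ => by rw [h.w_eq]
    refine ⟨(Finsupp.domCongr (M := ℤ) h.eqv).toEquiv.subtypeEquiv key, ?_, ?_, ?_, ?_⟩
    · intro a b c e
      show Finsupp.domCongr (M := ℤ) h.eqv c.1 =
        Finsupp.domCongr (M := ℤ) h.eqv a.1 + Finsupp.domCongr (M := ℤ) h.eqv b.1
      rw [e, map_add]
    · intro m
      show φ.wmono m.1 / S'.mono (Finsupp.domCongr (M := ℤ) h.eqv m.1) ∈ _
      rw [key2, div_self]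
      · exact one_mem _
      · exact lmono_ne_zero _ (fun v => xx_ne_zero v) _
    · intro m
      have e1 : ∀ i : ℕ, (Finsupp.domCongr (M := ℤ) h.eqv m.1) (Sum.inl i) = m.1 (Sum.inl i) := by
        intro i
        simp [Finsupp.domCongr_apply, Finsupp.equivMapDomain_apply, h.eqv_symm_inl]
      constructor
      · intro h1 i
        exact (e1 i).trans (h1 i)
      · intro h1 i
        exact (e1 i).symm.trans (h1 i)
    · intro m _
      exact key2 m.1
  · -- one
    refine ⟨Finsupp.single (Sum.inl x) ε - Finsupp.single (Sum.inl y) ε, ?_, ?_⟩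
    · rw [h.hLam]
      have e1 : (fun i : ℕ => (Finsupp.single (Sum.inl x) ε - Finsupp.single (Sum.inl y) ε :
          S.V →₀ ℤ) (Sum.inl i)) = fun i => (if x = i then ε else 0) - (if y = i then ε else 0) := by
        funext i
        rw [Finsupp.sub_apply, Finsupp.single_apply, Finsupp.single_apply]
        simp only [Sum.inl.injEq]
      rw [e1]
      refine ⟨fun i hi => ?_, ?_⟩
      · have n1 : x ≠ i := fun e => hi (e ▸ h.hx)
        have n2 : y ≠ i := fun e => hi (e ▸ h.hy)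
        simp [n1, n2]
      · rw [Finset.sum_sub_distrib, Finset.sum_ite_eq, Finset.sum_ite_eq, if_pos h.hx, if_pos h.hy,
          sub_self]
    · rw [h.pair_eq, Finsupp.sub_apply, Finsupp.single_apply, Finsupp.single_apply]
      have n2 : (Sum.inl y : S.V) ≠ Sum.inl x := fun e => h.hxy (Sum.inl_injective e)
      rw [if_pos rfl, if_neg n2, sub_zero, h.hε]

/-! ### the two cases -/

theorem lam_dsum (hds : LdsStmt) (U T : Net) (hV : (Net.dsum U T).Valid) (x : ℕ) (l' : Finset ℕ)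
    (hU : IsEmpty U.G) (hT : IsEmpty T.G)
    (hLU : ∀ m : U.flat.V →₀ ℤ, m ∈ U.flat.Lam ↔ LabCond {x} fun i => m (Sum.inl i))
    (hLT : ∀ m : T.flat.V →₀ ℤ, m ∈ T.flat.Lam ↔ LabCond l' fun i => m (Sum.inl i))
    (m : (Net.dsum U T).flat.V →₀ ℤ) :
    m ∈ (Net.dsum U T).flat.Lam ↔ LabCond l' fun i => m (Sum.inl i) := by
  classical
  rw [hds U T hV]
  have hR : ∀ i : ℕ, vdR U T (Sum.inl i) = Sum.inl i := fun i => rfl
  have hval : ∀ (b : T.flat.V →₀ ℤ) (i : ℕ),
      (b.mapDomain (vdR U T) : (Net.dsum U T).flat.V →₀ ℤ) (Sum.inl i) = b (Sum.inl i) := by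
    intro b i
    exact Finsupp.mapDomain_apply (vdR U T).injective b (Sum.inl i)
  constructor
  · rintro ⟨a, ha, b, hb, rfl⟩
    have ha0 : a = 0 := by
      rw [hLU] at ha
      ext v
      rcases v with i | g
      · by_cases hi : i = x
        · subst hi
          have := ha.2
          rw [Finset.sum_singleton] at this
          exact this
        · exact ha.1 i (by rw [Finset.mem_singleton]; exact hi)
      · exact (hU.false g).elim
    rw [hLT] at hb
    have e1 : (fun i : ℕ => (a.mapDomain (vdL U T) + b.mapDomain (vdR U T) :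
        (Net.dsum U T).flat.V →₀ ℤ) (Sum.inl i)) = fun i => b (Sum.inl i) := by
      funext i
      rw [ha0, Finsupp.mapDomain_zero, zero_add, hval]
    rw [e1]
    exact hb
  · intro h
    have hsur : ∀ v : (Net.dsum U T).flat.V, v ∈ Set.range (vdR U T) := by
      rintro (i | g)
      · exact ⟨Sum.inl i, rfl⟩
      · rcases (show U.G ⊕ T.G from g) with g | g
        · exact (hU.false g).elim
        · exact (hT.false g).elim
    refine ⟨0, zero_mem _, m.comapDomain (vdR U T) (vdR U T).injective.injOn, ?_, ?_⟩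
    · rw [hLT]
      exact h
    · rw [Finsupp.mapDomain_zero, zero_add,
        Finsupp.mapDomain_comapDomain _ (vdR U T).injective _ (fun v _ => hsur v)]

theorem wvalid (x : ℕ) (l : Finset ℕ) (hl : 2 ≤ l.card) (hx : x ∈ l) :
    (Net.dsum (Net.white {x}) (Net.black (l.erase x))).Valid ∧
    (Net.dsum (Net.black {x}) (Net.white (l.erase x))).Valid := by
  have h1 : (l.erase x).Nonempty := by
    rw [← Finset.card_pos, Finset.card_erase_of_mem hx]; omega
  have h2 : Disjoint ({x} : Finset ℕ) (l.erase x) := by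
    rw [Finset.disjoint_singleton_left]; exact Finset.notMem_erase x l
  exact ⟨⟨Finset.singleton_nonempty x, h1, h2⟩, ⟨Finset.singleton_nonempty x, h1, h2⟩⟩

theorem exists_ne (x : ℕ) (l : Finset ℕ) (hl : 2 ≤ l.card) (hx : x ∈ l) : ∃ y ∈ l, y ≠ x := by
  have h1 : (l.erase x).Nonempty := by
    rw [← Finset.card_pos, Finset.card_erase_of_mem hx]; omega
  obtain ⟨y, hy⟩ := h1
  exact ⟨y, Finset.mem_of_mem_erase hy, Finset.ne_of_mem_erase hy⟩

theorem white1_M (x : ℕ) (J : Finset ℕ) : J ∈ (Net.white {x}).M ↔ J = ∅ := by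
  simp [Net.M]

theorem black1_M (x : ℕ) (J : Finset ℕ) : J ∈ (Net.black {x}).M ↔ J = {x} := by
  simp [Net.M]

theorem bM (x : ℕ) (l I : Finset ℕ) :
    I ∈ (Net.dsum (Net.white {x}) (Net.black (l.erase x))).M ↔ ∃ z ∈ l.erase x, I = {z} := by
  rw [dsum_M]
  constructor
  · rintro ⟨J, hJ, K, hK, rfl⟩
    rw [white1_M] at hJ
    subst hJ
    rw [Net.M, Finset.mem_image] at hK
    obtain ⟨z, hz, rfl⟩ := hK
    exact ⟨z, hz, by simp⟩
  · rintro ⟨z, hz, rfl⟩
    refine ⟨∅, (white1_M x _).mpr rfl, {z}, ?_, by simp⟩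
    rw [Net.M, Finset.mem_image]
    exact ⟨z, hz, rfl⟩

theorem wM (x : ℕ) (l I : Finset ℕ) (hx : x ∈ l) :
    I ∈ (Net.dsum (Net.black {x}) (Net.white (l.erase x))).M ↔ ∃ z ∈ l.erase x, I = l.erase z := by
  have key : ∀ z ∈ l.erase x, {x} ∪ (l.erase x).erase z = l.erase z := by
    intro z hz
    have hzx : z ≠ x := Finset.ne_of_mem_erase hz
    ext i
    simp only [Finset.mem_union, Finset.mem_singleton, Finset.mem_erase]
    constructor
    · rintro (rfl | ⟨h1, h2, h3⟩)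
      · exact ⟨hzx.symm, hx⟩
      · exact ⟨h1, h3⟩
    · rintro ⟨h1, h2⟩
      by_cases h : i = x
      · exact Or.inl h
      · exact Or.inr ⟨h1, h, h2⟩
  rw [dsum_M]
  constructor
  · rintro ⟨J, hJ, K, hK, rfl⟩
    rw [black1_M] at hJ
    subst hJ
    rw [Net.M, Finset.mem_image] at hK
    obtain ⟨z, hz, rfl⟩ := hK
    exact ⟨z, hz, key z hz⟩
  · rintro ⟨z, hz, rfl⟩
    refine ⟨{x}, (black1_M x _).mpr rfl, (l.erase x).erase z, ?_, (key z hz).symm⟩
    rw [Net.M, Finset.mem_image]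
    exact ⟨z, hz, rfl⟩

theorem dsum_Δ_one (U T : Net) (hV : (Net.dsum U T).Valid) (hU : ∀ I ∈ U.M, U.Δ I = 1)
    (hT : ∀ I ∈ T.M, T.Δ I = 1) : ∀ I ∈ (Net.dsum U T).M, (Net.dsum U T).Δ I = 1 := by
  intro I hI
  obtain ⟨J, hJ, K, hK, rfl⟩ := dsum_M _ |>.mp hI
  obtain ⟨h1, h2, h3⟩ := hV
  have wS := Net.wf' U h1
  have wT := Net.wf' T h2
  have hd := h3
  rw [Finset.disjoint_left] at hd
  have e1 : (J ∪ K) ∩ U.E = J := by
    ext x
    simp only [Finset.mem_inter, Finset.mem_union]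
    constructor
    · rintro ⟨h1 | h1, h2⟩
      · exact h1
      · exact absurd (wT.sub K hK h1) (hd h2)
    · intro h; exact ⟨Or.inl h, wS.sub J hJ h⟩
  have e2 : (J ∪ K) ∩ T.E = K := by
    ext x
    simp only [Finset.mem_inter, Finset.mem_union]
    constructor
    · rintro ⟨h1 | h1, h2⟩
      · exact absurd h2 (hd (wS.sub J hJ h1))
      · exact h1
    · intro h; exact ⟨Or.inr h, wT.sub K hK h⟩
  have e3 : J ∪ K ⊆ U.E ∪ T.E := Finset.union_subset_union (wS.sub J hJ) (wT.sub K hK)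
  rw [Net.Δ, if_pos e3, e1, e2, hU J hJ, hT K hK, map_one, map_one, one_mul]

theorem black_Δ (l : Finset ℕ) : ∀ I ∈ (Net.black l).M, (Net.black l).Δ I = 1 := by
  intro I hI; rw [Net.Δ, if_pos hI]

theorem white_Δ (l : Finset ℕ) : ∀ I ∈ (Net.white l).M, (Net.white l).Δ I = 1 := by
  intro I hI; rw [Net.Δ, if_pos hI]

theorem dsum_Δ_zero (S : Net) (hV : S.Valid) : ∀ I, I ∉ S.M → S.Δ I = 0 := by
  intro I hI
  by_contra h
  exact hI (((Net.wf' S hV).ne I).mp h)

theorem black_ok (hbw : LbwStmt) (hds : LdsStmt) (l : Finset ℕ) (x : ℕ) (hx : x ∈ l)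
    (hl : 2 ≤ l.card) : (blackFD l x).Ok := by
  classical
  obtain ⟨y, hy, hyx⟩ := exists_ne x l hl hx
  obtain ⟨hV, -⟩ := wvalid x l hl hx
  have hne : (l.erase x).Nonempty := ⟨y, Finset.mem_erase.mpr ⟨hyx, hy⟩⟩
  have hT : TData _ _ (blackFD l x) l x y 1 :=
    { hG := inferInstanceAs (IsEmpty Empty)
      hG' := inferInstanceAs (IsEmpty (Empty ⊕ Empty))
      hΔ := black_Δ l
      hΔ' := dsum_Δ_one _ _ hV (white_Δ _) (black_Δ _)
      hΔ0 := dsum_Δ_zero _ hV
      hw := fun i => rfl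
      hl := fun i => rfl
      hε := rfl
      hκ := rfl
      hx := hx
      hy := hy
      hxy := hyx
      hsub := by
        intro I hI
        obtain ⟨z, hz, rfl⟩ := (bM x l I).mp hI
        show _ ∈ (Net.black l).M
        rw [Net.M, Finset.mem_image]
        exact ⟨z, Finset.mem_of_mem_erase hz, rfl⟩
      he := by
        intro I hI
        have hI' : I ∈ (Net.black l).M := hI
        rw [Net.M, Finset.mem_image] at hI'
        obtain ⟨z, hz, rfl⟩ := hI'
        by_cases hzx : z = x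
        · right
          subst hzx
          refine ⟨?_, ?_⟩
          · intro h
            obtain ⟨z', hz', e⟩ := (bM z l _).mp h
            rw [Finset.singleton_inj] at e
            subst e
            exact Finset.notMem_erase _ _ hz'
          · rw [if_pos (Finset.mem_singleton_self z)]; rfl
        · left
          refine ⟨(bM x l _).mpr ⟨z, Finset.mem_erase.mpr ⟨hzx, hz⟩, rfl⟩, ?_⟩
          rw [if_neg (by rw [Finset.mem_singleton]; exact fun e => hzx e.symm)]; rfl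
      h0 := ⟨{y}, (bM x l _).mpr ⟨y, Finset.mem_erase.mpr ⟨hyx, hy⟩, rfl⟩⟩
      h1 := by
        refine ⟨{x}, ?_, ?_⟩
        · show _ ∈ (Net.black l).M
          rw [Net.M, Finset.mem_image]
          exact ⟨x, hx, rfl⟩
        · intro h
          obtain ⟨z', hz', e⟩ := (bM x l _).mp h
          rw [Finset.singleton_inj] at e
          subst e
          exact Finset.notMem_erase _ _ hz'
      hLam := (hbw l ⟨x, hx⟩).1
      hLam' := lam_dsum hds _ _ hV x (l.erase x) (inferInstanceAs (IsEmpty Empty))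
        (inferInstanceAs (IsEmpty Empty)) (hbw {x} (Finset.singleton_nonempty x)).2
        (hbw (l.erase x) hne).1 }
  exact hT.ok

theorem white_ok (hbw : LbwStmt) (hds : LdsStmt) (l : Finset ℕ) (x : ℕ) (hx : x ∈ l)
    (hl : 2 ≤ l.card) : (whiteFD l x).Ok := by
  classical
  obtain ⟨y, hy, hyx⟩ := exists_ne x l hl hx
  obtain ⟨-, hV⟩ := wvalid x l hl hx
  have hne : (l.erase x).Nonempty := ⟨y, Finset.mem_erase.mpr ⟨hyx, hy⟩⟩
  have hT : TData _ _ (whiteFD l x) l x y (-1) :=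
    { hG := inferInstanceAs (IsEmpty Empty)
      hG' := inferInstanceAs (IsEmpty (Empty ⊕ Empty))
      hΔ := white_Δ l
      hΔ' := dsum_Δ_one _ _ hV (black_Δ _) (white_Δ _)
      hΔ0 := dsum_Δ_zero _ hV
      hw := fun i => rfl
      hl := fun i => rfl
      hε := rfl
      hκ := rfl
      hx := hx
      hy := hy
      hxy := hyx
      hsub := by
        intro I hI
        obtain ⟨z, hz, rfl⟩ := (wM x l I hx).mp hI
        show _ ∈ (Net.white l).M
        rw [Net.M, Finset.mem_image]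
        exact ⟨z, Finset.mem_of_mem_erase hz, rfl⟩
      he := by
        intro I hI
        have hI' : I ∈ (Net.white l).M := hI
        rw [Net.M, Finset.mem_image] at hI'
        obtain ⟨z, hz, rfl⟩ := hI'
        by_cases hzx : z = x
        · right
          subst hzx
          refine ⟨?_, ?_⟩
          · intro h
            obtain ⟨z', hz', e⟩ := (wM z l _ hx).mp h
            have : z ∈ l.erase z' := by
              rw [Finset.mem_erase]
              exact ⟨(Finset.ne_of_mem_erase hz').symm, hx⟩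
            rw [← e] at this
            exact Finset.notMem_erase _ _ this
          · rw [if_neg (Finset.notMem_erase z l)]; rfl
        · left
          refine ⟨(wM x l _ hx).mpr ⟨z, Finset.mem_erase.mpr ⟨hzx, hz⟩, rfl⟩, ?_⟩
          rw [if_pos (by rw [Finset.mem_erase]; exact ⟨fun e => hzx e.symm, hx⟩)]; rfl
      h0 := ⟨l.erase y, (wM x l _ hx).mpr ⟨y, Finset.mem_erase.mpr ⟨hyx, hy⟩, rfl⟩⟩
      h1 := by
        refine ⟨l.erase x, ?_, ?_⟩
        · show _ ∈ (Net.white l).M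
          rw [Net.M, Finset.mem_image]
          exact ⟨x, hx, rfl⟩
        · intro h
          obtain ⟨z', hz', e⟩ := (wM x l _ hx).mp h
          have : x ∈ l.erase z' := by
            rw [Finset.mem_erase]
            exact ⟨(Finset.ne_of_mem_erase hz').symm, hx⟩
          rw [← e] at this
          exact Finset.notMem_erase _ _ this
      hLam := (hbw l ⟨x, hx⟩).2
      hLam' := lam_dsum hds _ _ hV x (l.erase x) (inferInstanceAs (IsEmpty Empty))
        (inferInstanceAs (IsEmpty Empty)) (hbw {x} (Finset.singleton_nonempty x)).1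
        (hbw (l.erase x) hne).2 }
  exact hT.ok

/-- CBW -/
theorem cbw (hbw : LbwStmt) (hds : LdsStmt) : CbwStmt :=
  ⟨fun l x hx hl => black_ok hbw hds l x hx hl, fun l x hx hl => white_ok hbw hds l x hx hl⟩

end ABCT.H94
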