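import Pool.Agent.Helper32_ABCT.Stmts2

/-!
# CG4: (R3s) for `gen` (MP_a17fcb_ag)
-/

open MvPolynomial

namespace ABCT.H94

open ABCT FlatCell

/-- extend gap values by one -/
noncomputable def gext {K : Type*} [One K] (l : List ℕ) (y : Fin (l.length - 2) → K) (h : ℕ) : K :=
  if hh : h < l.length - 2 then y ⟨h, hh⟩ else 1

theorem gext_eq {K : Type*} [One K] (l : List ℕ) (y : Fin (l.length - 2) → K) (h : ℕ)
    (hh : h < l.length - 2) : gext l y h = y ⟨h, hh⟩ := dif_pos hh

theorem prs_lt (l : List ℕ) (J : Finset ℕ) (p : ℕ × ℕ) (hp : p ∈ Net.prs l J) :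
    p.1 < p.2 ∧ p.2 + 1 < l.length := by
  unfold Net.prs at hp
  rw [Finset.mem_filter, Finset.mem_product, Finset.mem_range, Finset.mem_range] at hp
  exact ⟨hp.2.1, by omega⟩

theorem D_eval {K : Type*} [CommSemiring K] (l : List ℕ) (y : Fin (l.length - 2) → K) (a b : ℕ)
    (hb : b ≤ l.length - 2) :
    eval₂ (Nat.castRingHom K) y (Net.D (l.length - 2) a b) =
      ∑ h ∈ Finset.Ico a b, gext l y h := by
  unfold Net.D
  rw [eval₂_sum]
  simp only [eval₂_X]
  refine Finset.sum_bij' (fun h _ => h.1) (fun h hh => ⟨h, by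
    have := (Finset.mem_Ico.1 hh).2; omega⟩) ?_ ?_ ?_ ?_ ?_
  · intro h hh
    exact Finset.mem_Ico.2 (Finset.mem_filter.1 hh).2
  · intro h hh
    exact Finset.mem_filter.2 ⟨Finset.mem_univ _, Finset.mem_Ico.1 hh⟩
  · intro h _; rfl
  · intro h _; rfl
  · intro h _
    exact (gext_eq l y h.1 h.2).symm

theorem gen_ev {K : Type*} [CommSemiring K] (l : List ℕ) (r : ℕ)
    (y : (Net.gen l r).flat.V → K) (I : Finset ℕ) :
    (Net.gen l r).flat.ev y I = Pg l r (fun i => y (Sum.inl i))
      (gext l fun h => y (Sum.inr h)) I := by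
  classical
  rw [ev_eq, Pg]
  show _ * eval₂ _ _ (if I ∈ (Net.gen l r).M then _ else 0) = _
  by_cases hI : I ∈ l.toFinset.powersetCard r
  · have hI' : I ∈ (Net.gen l r).M := hI
    rw [if_pos hI, if_pos hI']
    congr 1
    rw [← coe_eval₂Hom, map_prod]
    refine Finset.prod_congr rfl fun q hq => ?_
    have h2 := prs_lt l I q hq
    rw [coe_eval₂Hom]
    exact D_eval l _ q.1 q.2 (by omega)
  · have hI' : I ∉ (Net.gen l r).M := hI
    rw [if_neg hI, if_neg hI', eval₂_zero, mul_zero]

/-- the bases of a split -/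
theorem tsum_M_eq (L A R : List ℕ) (ρ q d r : ℕ) (SA SB : Net)
    (hnd : (L ++ A ++ R ++ [ρ]).Nodup) (hq : q ∉ L ++ A ++ R ++ [ρ]) (hr : 1 ≤ r)
    (hMA : SA.M = (A ++ [q]).toFinset.powersetCard (d + 1))
    (hMB : SB.M = (L ++ [q] ++ R ++ [ρ]).toFinset.powersetCard r) :
    (Net.tsum SA SB q).M = MAd (L ++ A ++ R ++ [ρ]) A.toFinset (d + r) d := by
  classical
  have hdis : ∀ x ∈ A, x ∉ L ∧ x ∉ R ∧ x ≠ ρ := by
    intro x hx
    simp only [List.nodup_append, List.mem_append, List.mem_singleton] at hnd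
    refine ⟨fun h => ?_, fun h => ?_, fun h => ?_⟩
    · exact hnd.1.1.2.2 x h x hx rfl
    · exact hnd.1.2.2 x (Or.inr hx) x h rfl
    · exact hnd.2.2 x (Or.inl (Or.inr hx)) ρ rfl h
  have hqL : q ∉ L ∧ q ∉ A ∧ q ∉ R ∧ q ≠ ρ := by
    simp only [List.mem_append, List.mem_singleton] at hq
    push Not at hq
    exact ⟨hq.1.1.1, hq.1.1.2, hq.1.2, hq.2⟩
  ext I
  rw [tsum_M, hMA, hMB, MAd, Finset.mem_filter, Finset.mem_powersetCard]
  constructor
  · rintro ⟨J, hJ, K, hK, hX, rfl⟩
    rw [Finset.mem_powersetCard] at hJ hK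
    have hJs : ∀ x ∈ J, x ∈ A ∨ x = q := by
      intro x hx
      have := hJ.1 hx
      simp only [List.mem_toFinset, List.mem_append, List.mem_singleton] at this
      exact this
    have hKs : ∀ x ∈ K, x ∈ L ∨ x = q ∨ x ∈ R ∨ x = ρ := by
      intro x hx
      have := hK.1 hx
      simp only [List.mem_toFinset, List.mem_append, List.mem_singleton] at this
      tauto
    have e1 : (J ∪ K).erase q ∩ A.toFinset = J.erase q := by
      ext x
      simp only [Finset.mem_inter, Finset.mem_erase, Finset.mem_union, List.mem_toFinset]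
      constructor
      · rintro ⟨⟨h1, h2 | h2⟩, h3⟩
        · exact ⟨h1, h2⟩
        · have hd := hdis x h3
          rcases hKs x h2 with h | h | h | h
          · exact absurd h hd.1
          · exact absurd h h1
          · exact absurd h hd.2.1
          · exact absurd h hd.2.2
      · rintro ⟨h1, h2⟩
        refine ⟨⟨h1, Or.inl h2⟩, ?_⟩
        exact (hJs x h2).resolve_right h1
    have e2 : (J ∪ K).erase q = J.erase q ∪ K.erase q := Finset.erase_union_distrib _ _ _
    have e3 : Disjoint (J.erase q) (K.erase q) := by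
      rw [Finset.disjoint_left]
      intro x hx hx'
      rw [Finset.mem_erase] at hx hx'
      have h3 := (hJs x hx.2).resolve_right hx.1
      have hd := hdis x h3
      rcases hKs x hx'.2 with h | h | h | h
      · exact absurd h hd.1
      · exact absurd h hx'.1
      · exact absurd h hd.2.1
      · exact absurd h hd.2.2
    have e4 : ((J ∪ K).erase q).card = (J.erase q).card + (K.erase q).card := by
      rw [e2, Finset.card_union_of_disjoint e3]
    refine ⟨⟨?_, ?_⟩, ?_⟩
    · intro x hx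
      rw [Finset.mem_erase, Finset.mem_union] at hx
      simp only [List.mem_toFinset, List.mem_append, List.mem_singleton]
      rcases hx.2 with h | h
      · exact Or.inl (Or.inl (Or.inr ((hJs x h).resolve_right hx.1)))
      · rcases hKs x h with h | h | h | h
        · exact Or.inl (Or.inl (Or.inl h))
        · exact absurd h hx.1
        · exact Or.inl (Or.inr h)
        · exact Or.inr h
    · rw [e4]
      rcases hX with ⟨h1, h2⟩ | ⟨h1, h2⟩
      · rw [Finset.card_erase_of_mem h1, Finset.erase_eq_of_notMem h2, hJ.2, hK.2]; omega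
      · rw [Finset.card_erase_of_mem h2, Finset.erase_eq_of_notMem h1, hJ.2, hK.2]; omega
    · rw [e1]
      rcases hX with ⟨h1, h2⟩ | ⟨h1, h2⟩
      · left; rw [Finset.card_erase_of_mem h1, hJ.2]; omega
      · right; rw [Finset.erase_eq_of_notMem h1, hJ.2]
  · rintro ⟨⟨hI, hc⟩, h⟩
    have hIs : ∀ x ∈ I, x ∈ L ∨ x ∈ A ∨ x ∈ R ∨ x = ρ := by
      intro x hx
      have := hI hx
      simp only [List.mem_toFinset, List.mem_append, List.mem_singleton] at this
      tauto
    have hqI : q ∉ I := by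
      intro h'
      rcases hIs q h' with h | h | h | h
      · exact hqL.1 h
      · exact hqL.2.1 h
      · exact hqL.2.2.1 h
      · exact hqL.2.2.2 h
    have hcard := Finset.card_inter_add_card_sdiff I A.toFinset
    rcases h with h | h
    · refine ⟨insert q (I ∩ A.toFinset), ?_, I \ A.toFinset, ?_, ?_, ?_⟩
      · rw [Finset.mem_powersetCard]
        refine ⟨?_, ?_⟩
        · intro x hx
          rw [Finset.mem_insert, Finset.mem_inter, List.mem_toFinset] at hx
          simp only [List.mem_toFinset, List.mem_append, List.mem_singleton]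
          tauto
        · rw [Finset.card_insert_of_notMem (by rw [Finset.mem_inter]; tauto), h]
      · rw [Finset.mem_powersetCard]
        refine ⟨?_, by omega⟩
        intro x hx
        rw [Finset.mem_sdiff, List.mem_toFinset] at hx
        simp only [List.mem_toFinset, List.mem_append, List.mem_singleton]
        have := hIs x hx.1
        tauto
      · left
        exact ⟨Finset.mem_insert_self _ _, by rw [Finset.mem_sdiff]; tauto⟩
      · ext x
        simp only [Finset.mem_erase, Finset.mem_union, Finset.mem_insert, Finset.mem_inter,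
          Finset.mem_sdiff]
        constructor
        · intro hx
          exact ⟨fun e => hqI (e ▸ hx), by tauto⟩
        · rintro ⟨h1, h2⟩
          tauto
    · refine ⟨I ∩ A.toFinset, ?_, insert q (I \ A.toFinset), ?_, ?_, ?_⟩
      · rw [Finset.mem_powersetCard]
        refine ⟨?_, h⟩
        intro x hx
        rw [Finset.mem_inter, List.mem_toFinset] at hx
        simp only [List.mem_toFinset, List.mem_append, List.mem_singleton]
        tauto
      · rw [Finset.mem_powersetCard]
        refine ⟨?_, ?_⟩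
        · intro x hx
          rw [Finset.mem_insert, Finset.mem_sdiff, List.mem_toFinset] at hx
          simp only [List.mem_toFinset, List.mem_append, List.mem_singleton]
          rcases hx with hx | hx
          · tauto
          · have := hIs x hx.1
            tauto
        · rw [Finset.card_insert_of_notMem (by rw [Finset.mem_sdiff]; tauto)]
          omega
      · right
        exact ⟨by rw [Finset.mem_inter]; tauto, Finset.mem_insert_self _ _⟩
      · ext x
        simp only [Finset.mem_erase, Finset.mem_union, Finset.mem_insert, Finset.mem_inter,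
          Finset.mem_sdiff]
        constructor
        · intro hx
          exact ⟨fun e => hqI (e ▸ hx), by tauto⟩
        · rintro ⟨h1, h2⟩
          tauto

/-- CG4 -/
theorem cg4 (hvtx : VtxGStmt) (hcg0 : Cg0Stmt) (hquo : HquoStmt) (hsq : HsquoStmt) : Cg4Stmt := by
  classical
  intro L A R ρ q d r SA SB gA gB hF
  obtain ⟨wpos, -, -, -⟩ := hcg0 L A R ρ q d r SA SB gA gB hF
  have hval := hF.valid
  obtain ⟨hnd, hr2, hlen⟩ := hval
  have hndA : (A ++ [q]).Nodup := by
    have h1 := hF.hq
    simp only [List.nodup_append, List.mem_append, List.mem_singleton, List.nodup_singleton] at hnd h1 ⊢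
    push Not at h1
    refine ⟨hnd.1.1.2.1, trivial, ?_⟩
    rintro a ha b rfl e
    exact h1.1.1.2 (e ▸ ha)
  have hndB : (L ++ [q] ++ R ++ [ρ]).Nodup := by
    have h1 := hF.hq
    simp only [List.nodup_append, List.mem_append, List.mem_singleton, List.nodup_singleton] at hnd h1 ⊢
    push Not at h1
    refine ⟨⟨⟨hnd.1.1.1, trivial, ?_⟩, hnd.1.2.1, ?_⟩, trivial, ?_⟩
    · rintro a ha b rfl e
      exact h1.1.1.1 (e ▸ ha)
    · rintro a (ha | rfl) b hb e
      · exact hnd.1.2.2 a (Or.inl ha) b hb e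
      · exact h1.1.2 (e ▸ hb)
    · rintro a ((ha | rfl) | ha) b rfl e
      · exact hnd.2.2 a (Or.inl (Or.inl ha)) b rfl e
      · exact h1.2 e
      · exact hnd.2.2 a (Or.inr ha) b rfl e
  obtain ⟨-, -, hA1, hA2, hA3, hA4⟩ := hvtx _ _ _ hF.hA hndA
  obtain ⟨-, -, hB1, hB2, hB3, hB4⟩ := hvtx _ _ _ hF.hB hndB
  simp only [List.length_append, List.length_singleton] at hA2 hA3 hA4 hB2 hB3 hB4 hlen
  set φ := genFD L A R ρ q d r SA SB gA gB with hφ
  have hll : (L ++ A ++ R ++ [ρ]).length = L.length + A.length + R.length + 1 := by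
    simp only [List.length_append, List.length_singleton]
  have hM : (Net.tsum SA SB q).M = MAd (L ++ A ++ R ++ [ρ]) A.toFinset (d + r) d :=
    tsum_M_eq L A R ρ q d r SA SB hnd hF.hq hB1 hF.vA.2.1 hF.vB.2.1
  have hAl : (((L ++ A ++ R ++ [ρ]).drop L.length).take (L.length + A.length - L.length)).toFinset = A.toFinset := by
    congr 1
    rw [Nat.add_sub_cancel_left, List.append_assoc, List.append_assoc, List.drop_left,
      List.take_left]
  set c : ℕ → RatFunc (Net.tsum SA SB q).flat.F := fun i => φ.psi (Sum.inl i) with hc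
  set u : ℕ → RatFunc (Net.tsum SA SB q).flat.F := gext (L ++ A ++ R ++ [ρ]) fun h => φ.psi (Sum.inr h) with hu
  have hPg : Pg (L ++ A ++ R ++ [ρ]) (d + r) c u = φ.P := by
    funext I
    exact (gen_ev (L ++ A ++ R ++ [ρ]) (d + r) φ.psi I).symm
  have hpsi : ∀ v, PosR (φ.psi v) := psi_pos φ wpos
  have hc0 : ∀ i, c i ≠ 0 := fun i => (hpsi _).ne_zero
  have hu0 : ∀ h, h < (L ++ A ++ R ++ [ρ]).length - 2 → PosR (u h) := by
    intro h hh
    rw [hu, gext_eq (L ++ A ++ R ++ [ρ]) _ h hh]
    exact hpsi _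
  have hsum : ∀ a b, a < b → b + 1 < (L ++ A ++ R ++ [ρ]).length → ∑ h ∈ Finset.Ico a b, u h ≠ 0 := by
    intro a b hab hb
    refine (PosR.sum _ ⟨a, Finset.mem_Ico.2 ⟨le_rfl, hab⟩⟩ _ fun h hh => hu0 h ?_).ne_zero
    have := (Finset.mem_Ico.1 hh).2
    omega
  have hP0 : ∀ I ∈ MAd (L ++ A ++ R ++ [ρ]) A.toFinset (d + r) d, φ.P I ≠ 0 := by
    intro I hI
    refine phi_P_ne_zero φ wpos I ?_
    rw [((wfStmt _ hF.valid).1.ne I)]
    exact (Finset.mem_filter.1 hI).1
  obtain ⟨a, b, a', b', h1, h2, h3, h4, h5, h6, I₁, hI₁, hI₁', I₀, hI₀, h, hh, heq⟩ :=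
    hsq _ (L ++ A ++ R ++ [ρ]) (d + r) d L.length (L.length + A.length) c u hnd hr2 (by omega) (by omega) (by omega)
      (by omega) (by omega) (by omega) (by omega) (by omega) (by omega) hc0 hsum
  have hq2 := (hquo _ (L ++ A ++ R ++ [ρ]) (d + r) d L.length (L.length + A.length) c u hnd hr2 (by omega) (by omega)
    (by omega) (by omega) (by omega) (by omega) (by omega) (by omega) (by omega) hc0 hsum).2
  rw [hAl] at hI₀ hI₁'
  rw [hPg] at heq
  rw [hAl, hPg] at hh
  simp only [hAl, hPg] at hq2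
  -- a difference without `s`
  obtain ⟨a'', b'', w₁, k1, k2, k3, k4, k5⟩ : ∃ (a'' b'' : ℕ) (w₁ : (Net.tsum SA SB q).flat.F),
      a'' < b'' ∧ b'' + 1 < (L ++ A ++ R ++ [ρ]).length ∧ (a'' < L.length ∨ L.length + A.length ≤ b'') ∧ PosF w₁ ∧
      ∑ h ∈ Finset.Ico a'' b'', u h = RatFunc.C w₁ := by
    by_cases hL : 0 < L.length
    · have hh1 : L.length - 1 < (L ++ A ++ R ++ [ρ]).length - 2 := by omega
      refine ⟨L.length - 1, L.length, φ.w (Sum.inr ⟨L.length - 1, hh1⟩), by omega, by omega,
        Or.inl (by omega), wpos _, ?_⟩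
      have e1 : Finset.Ico (L.length - 1) L.length = {L.length - 1} := by
        ext x; simp only [Finset.mem_Ico, Finset.mem_singleton]; omega
      rw [e1, Finset.sum_singleton, hu, gext_eq (L ++ A ++ R ++ [ρ]) _ _ hh1, FacetData.psi]
      have e2 : φ.lam (Sum.inr ⟨L.length - 1, hh1⟩) = 0 := by
        show (if L.length ≤ L.length - 1 ∧ L.length - 1 + 1 < L.length + A.length then (1:ℤ)
          else 0) = 0
        rw [if_neg (by omega)]
      rw [e2, zpow_zero, one_mul]
    · have hh1 : L.length + A.length - 1 < (L ++ A ++ R ++ [ρ]).length - 2 := by omega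
      refine ⟨L.length + A.length - 1, L.length + A.length,
        φ.w (Sum.inr ⟨L.length + A.length - 1, hh1⟩), by omega, by omega,
        Or.inr (by omega), wpos _, ?_⟩
      have e1 : Finset.Ico (L.length + A.length - 1) (L.length + A.length) =
          {L.length + A.length - 1} := by
        ext x; simp only [Finset.mem_Ico, Finset.mem_singleton]; omega
      rw [e1, Finset.sum_singleton, hu, gext_eq (L ++ A ++ R ++ [ρ]) _ _ hh1, FacetData.psi]
      have e2 : φ.lam (Sum.inr ⟨L.length + A.length - 1, hh1⟩) = 0 := by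
        show (if L.length ≤ L.length + A.length - 1 ∧
          L.length + A.length - 1 + 1 < L.length + A.length then (1:ℤ) else 0) = 0
        rw [if_neg (by omega)]
      rw [e2, zpow_zero, one_mul]
  -- the difference inside `A`
  obtain ⟨w₂, m1, m2⟩ : ∃ w₂ : (Net.tsum SA SB q).flat.F, PosF w₂ ∧
      ∑ h ∈ Finset.Ico a b, u h = sVar _ * RatFunc.C w₂ := by
    have hlt : ∀ h ∈ Finset.Ico a b, h < (L ++ A ++ R ++ [ρ]).length - 2 := by
      intro h hh
      have := (Finset.mem_Ico.1 hh).2
      omega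
    let w' : ℕ → (Net.tsum SA SB q).flat.F := fun h =>
      if hh : h < (L ++ A ++ R ++ [ρ]).length - 2 then φ.w (Sum.inr ⟨h, hh⟩) else 1
    have hw' : ∀ h, PosF (w' h) := by
      intro h
      show PosF (if hh : h < (L ++ A ++ R ++ [ρ]).length - 2 then φ.w (Sum.inr ⟨h, hh⟩) else 1)
      split_ifs with hh
      · exact wpos _
      · exact PosF.one
    refine ⟨∑ h ∈ Finset.Ico a b, w' h, ?_, ?_⟩
    · exact PosF.sum _ ⟨a, Finset.mem_Ico.2 ⟨le_rfl, h2⟩⟩ _ fun h _ => hw' h
    · rw [map_sum, Finset.mul_sum]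
      refine Finset.sum_congr rfl fun h hh => ?_
      have hh1 := hlt h hh
      have hh2 := Finset.mem_Ico.1 hh
      rw [hu, gext_eq (L ++ A ++ R ++ [ρ]) _ _ hh1, FacetData.psi]
      have e2 : φ.lam (Sum.inr ⟨h, hh1⟩) = 1 := by
        show (if L.length ≤ h ∧ h + 1 < L.length + A.length then (1:ℤ) else 0) = 1
        rw [if_pos (by omega)]
      have e3 : w' h = φ.w (Sum.inr ⟨h, hh1⟩) := dif_pos hh1
      rw [e2, zpow_one, e3]
  have hX : (∑ h ∈ Finset.Ico a' b', u h) / (∑ h ∈ Finset.Ico a'' b'', u h) ∈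
      Mon (MAd (L ++ A ++ R ++ [ρ]) A.toFinset (d + r) d) φ.P := hq2 a' b' a'' b'' h4 h5 k1 k2 h6 k3
  refine ⟨I₁, hI₁, by rw [hM]; exact hI₁', I₀, by rw [hM]; exact hI₀,
    h * ((∑ h ∈ Finset.Ico a' b', u h) / (∑ h ∈ Finset.Ico a'' b'', u h)), ?_, w₂ / w₁,
    div_ne_zero m1.ne_zero k4.ne_zero, ?_⟩
  · rw [hM]
    exact mon_mul hP0 hh hX
  · have e1 : h * ((∑ h ∈ Finset.Ico a' b', u h) / (∑ h ∈ Finset.Ico a'' b'', u h)) *
        φ.P I₁ / φ.P I₀ =
        (h * φ.P I₁ / φ.P I₀) *
          ((∑ h ∈ Finset.Ico a' b', u h) / (∑ h ∈ Finset.Ico a'' b'', u h)) := by ring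
    rw [e1, heq, div_mul_div_cancel₀ (hsum a' b' h4 h5), k5, m2, map_div₀, mul_div_assoc]

end ABCT.H94
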